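import Pool.Agent.helper20.FX.Spec

set_option autoImplicit false

namespace Pool.Agent.FXM

theorem REL : REL_stmt := by
  intro k M n hk hk3 hn hdvd
  have hkn : k * 2 ^ n ≤ 2 ^ M := by
    have := Nat.le_of_dvd (by positivity) hdvd
    omega
  have hp : 0 < 2 ^ n := by positivity
  have h2n : 2 ^ n < 2 ^ M := by nlinarith
  have hnM : n < M := (Nat.pow_lt_pow_iff_right (by norm_num)).1 h2n
  have hM : n * (M / n) + M % n = M := Nat.div_add_mod M n
  have hrn : M % n < n := Nat.mod_lt _ hn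
  have hq1 : 1 ≤ M / n := Nat.div_pos hnM.le hn
  generalize hq : M / n = q at *
  generalize hr : M % n = r at *
  have hD : ((k : ℤ) * 2 ^ n + 1 ∣ (k : ℤ) ^ q + (-1) ^ q * 2 ^ r) := by
    have h1 : ((k : ℤ) * 2 ^ n + 1 ∣ 2 ^ M + 1) := by exact_mod_cast hdvd
    have h2 : (k : ℤ) * 2 ^ n ≡ -1 [ZMOD (k : ℤ) * 2 ^ n + 1] := by
      rw [Int.modEq_iff_dvd]; exact ⟨-1, by ring⟩
    have h3 : (2 : ℤ) ^ M ≡ -1 [ZMOD (k : ℤ) * 2 ^ n + 1] := by
      rw [Int.modEq_iff_dvd]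
      have h : (-1 : ℤ) - 2 ^ M = -(2 ^ M + 1) := by ring
      rw [h]; exact (dvd_neg).2 h1
    have h4 : (2 : ℤ) ^ M * (k : ℤ) ^ q = 2 ^ r * ((k : ℤ) * 2 ^ n) ^ q := by
      rw [← hM, pow_add, pow_mul, mul_pow]; ring
    have h5 := (h3.mul_right ((k:ℤ) ^ q))
    have h6 := ((h2.pow q).mul_left (2 ^ r))
    rw [← h4] at h6
    have h7 := h5.symm.trans h6
    have h8 := h7.dvd
    have h9 : (2 : ℤ) ^ r * (-1) ^ q - -1 * (k : ℤ) ^ q = (k : ℤ) ^ q + (-1) ^ q * 2 ^ r := by ring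
    rwa [h9] at h8
  have hkq : 3 ≤ k ^ q := le_trans hk3 (Nat.le_self_pow (by omega) k)
  have hne : (k : ℤ) ^ q + (-1) ^ q * 2 ^ r ≠ 0 := by
    intro h0
    have h1 : k ^ q = 2 ^ r := by
      have h2 : |(k : ℤ) ^ q| = |(-1) ^ q * 2 ^ r| := by
        have h3 : (k : ℤ) ^ q = -((-1) ^ q * 2 ^ r) := by linarith
        rw [h3, abs_neg]
      rw [abs_mul, abs_pow (-1 : ℤ), abs_neg, abs_one, one_pow, one_mul,
        abs_of_nonneg (by positivity), abs_of_nonneg (by positivity)] at h2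
      exact_mod_cast h2
    have hodd : Odd (k ^ q) := hk.pow
    rcases Nat.eq_zero_or_pos r with h2 | h2
    · rw [h2, pow_zero] at h1; omega
    · rw [h1] at hodd
      have : Even (2 ^ r) := (Nat.even_pow.2 ⟨even_two, by omega⟩)
      exact (Nat.not_even_iff_odd.2 hodd) this
  have hle : (k : ℤ) * 2 ^ n + 1 ≤ (k : ℤ) ^ q + 2 ^ r := by
    have h1 := Int.le_of_dvd (abs_pos.2 hne) ((dvd_abs _ _).2 hD)
    refine h1.trans ((abs_add_le _ _).trans ?_)
    rw [abs_mul, abs_pow (-1 : ℤ), abs_neg, abs_one, one_pow, one_mul,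
        abs_of_nonneg (by positivity), abs_of_nonneg (by positivity)]
  have hle' : k * 2 ^ n + 1 ≤ k ^ q + 2 ^ r := by exact_mod_cast hle
  have hrn' : 2 ^ r ≤ 2 ^ n := Nat.pow_le_pow_right (by norm_num) hrn.le
  have hmain : 2 ^ n < k ^ q := by nlinarith
  refine ⟨hnM, hD, hmain, ?_⟩
  have hk0 : (0 : ℝ) < k := by exact_mod_cast (by omega : 0 < k)
  have hL : (n : ℝ) < (q : ℝ) * Real.logb 2 k := by
    have h1 : ((2 : ℝ)) ^ n < (k : ℝ) ^ q := by exact_mod_cast hmain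
    have h2 := (Real.logb_lt_logb_iff (b := 2) (by norm_num) (by positivity) (by positivity)).2 h1
    rw [Real.logb_pow, Real.logb_pow, Real.logb_self_eq_one (by norm_num), mul_one] at h2
    exact h2
  have hLpos : 0 < Real.logb 2 k := Real.logb_pos (by norm_num) (by exact_mod_cast (by omega : 1 < k))
  have hnpos : (0 : ℝ) < n := by exact_mod_cast hn
  have hqM : (n : ℝ) * q ≤ M := by
    have : n * q ≤ M := by omega
    exact_mod_cast this
  unfold XX
  calc (n : ℝ) ^ 2 = n * n := by ring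
    _ < n * ((q : ℝ) * Real.logb 2 k) := by
        exact mul_lt_mul_of_pos_left hL hnpos
    _ = (n * q) * Real.logb 2 k := by ring
    _ ≤ M * Real.logb 2 k := mul_le_mul_of_nonneg_right hqM hLpos.le

end Pool.Agent.FXM
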